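import Pool.Agent.Helper12.NK.St
import Pool.Agent.Helper35.PM.M_CUTV

/-!
# Project NK, module FCY: faces of 2-connected plane graphs are cycles
-/

set_option autoImplicit false

namespace Pool.Agent.Helper16.NK

open Pool.Agent.Helper51.AJ (IsMinor Planar Apex ExMinor Con Tch)
open Pool.Agent.Helper35.PM (Rot)
open Pool.Agent.Helper12.NK

theorem finDart {V : Type} [Finite V] (H : SimpleGraph V) : Finite H.Dart := by
  classical
  have := Fintype.ofFinite V
  exact Finite.of_injective (fun d : H.Dart => d.toProd) (fun d d' h => SimpleGraph.Dart.ext _ _ h)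

/-- A face visits every vertex at most once. -/
theorem face_inj {V : Type} [Finite V] (G : SimpleGraph V) (U : Set V) (R : Rot (rst G U)) (hK : Kc 2 G U)
    (d d' : (rst G U).Dart) (hs : R.φ.SameCycle d d') (hf : d.fst = d'.fst) : d = d' := by
  classical
  have := finDart (rst G U)
  by_contra hne
  obtain ⟨c, hc1, hc2, hc3⟩ := Pool.Agent.Helper35.PM.M_CUTV.main V (rst G U).Dart R.map d d' hne hf hs
  have hc1' : ∀ e : (rst G U).Dart, c e.symm = c e := hc1
  have hc2' : ∀ e : (rst G U).Dart, e.fst ≠ d.fst → c (R.r e) = c e := hc2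
  have ha : ∀ e e' : (rst G U).Dart, e.fst = e'.fst → e.fst ≠ d.fst → c e = c e' := by
    intro e e' hee hev
    obtain ⟨n, hn⟩ := (R.trans e e' hee).exists_nat_pow_eq
    have key : ∀ n : ℕ, c ((R.r ^ n) e) = c e ∧ ((R.r ^ n) e).fst = e.fst := by
      intro n
      induction n with
      | zero => exact ⟨rfl, rfl⟩
      | succ n ih =>
        rw [pow_succ', Equiv.Perm.mul_apply]
        refine ⟨?_, ?_⟩
        · rw [hc2' _ (by rw [ih.2]; exact hev), ih.1]
        · rw [R.fst_r, ih.2]
    rw [← hn]
    exact (key n).1.symm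
  have hcon : Con G (U \ {d.fst}) := hK.2 {d.fst} (by rw [Set.ncard_singleton]; norm_num)
  have hb : ∀ (a b : ↥(U \ {d.fst})), (G.induce (U \ {d.fst})).Walk a b →
      ∀ e e' : (rst G U).Dart, e.fst = a.1 → e'.fst = b.1 → c e = c e' := by
    intro a b w
    induction w with
    | nil =>
      intro e e' he he'
      exact ha e e' (he.trans he'.symm) (by rw [he]; exact fun h => (Subtype.prop _ : _ ∈ U \ {d.fst}).2 h)
    | @cons x y z hxy w ih =>
      intro e e' he he'
      have hadj : (rst G U).Adj x.1 y.1 := ⟨hxy, x.2.1, y.2.1⟩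
      let f : (rst G U).Dart := ⟨(x.1, y.1), hadj⟩
      have h1 : c e = c f := ha e f he (by rw [he]; exact fun h => x.2.2 h)
      have h2 : c f = c f.symm := (hc1' f).symm
      have h3 : c f.symm = c e' := ih f.symm e' rfl he'
      rw [h1, h2, h3]
  have hd1 : d.snd ∈ U \ {d.fst} := ⟨d.adj.2.2, fun h => d.adj.ne (Set.mem_singleton_iff.mp h).symm⟩
  have hd2 : d'.snd ∈ U \ {d.fst} :=
    ⟨d'.adj.2.2, fun h => d'.adj.ne (by rw [Set.mem_singleton_iff] at h; rw [h, hf])⟩
  obtain ⟨w⟩ := hcon.preconnected ⟨d.snd, hd1⟩ ⟨d'.snd, hd2⟩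
  have h4 : c d.symm = c d'.symm := hb _ _ w d.symm d'.symm rfl rfl
  rw [hc1', hc1'] at h4
  exact hc3 h4

/-- The face of a dart does not turn back. -/
theorem face_ne_symm (hKCA : StKCA) {V : Type} [Finite V] (G : SimpleGraph V) (U : Set V) (R : Rot (rst G U))
    (hK : Kc 2 G U) (d : (rst G U).Dart) : R.φ d ≠ d.symm := by
  classical
  have := finDart (rst G U)
  intro h
  have hr : R.r d.symm = d.symm := h
  have hall : ∀ e : (rst G U).Dart, e.fst = d.snd → e = d.symm := by
    intro e he
    obtain ⟨n, hn⟩ := (R.trans d.symm e (by rw [he]; rfl)).exists_nat_pow_eq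
    have key : ∀ n : ℕ, (R.r ^ n) d.symm = d.symm := by
      intro n
      induction n with
      | zero => rfl
      | succ n ih => rw [pow_succ', Equiv.Perm.mul_apply, ih, hr]
    rw [← hn, key]
  have h2 := (hKCA V G U).2.2.1 2 hK d.snd d.adj.2.2
  have hsub : {b | b ∈ U ∧ G.Adj d.snd b} ⊆ {d.fst} := by
    rintro b ⟨hb, hadj⟩
    have h3 := hall ⟨(d.snd, b), ⟨hadj, d.adj.2.2, hb⟩⟩ rfl
    have h4 := congrArg (fun e : (rst G U).Dart => e.snd) h3
    exact h4
  have h5 := Set.ncard_le_ncard hsub (Set.toFinite _)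
  rw [Set.ncard_singleton] at h5
  omega

/-- Module FCY. -/
theorem hFCY : StKCA → StFCY := by
  classical
  intro hKCA V _ G U R hK d
  have := finDart (rst G U)
  have hinj := face_inj G U R hK
  have hns := face_ne_symm hKCA G U R hK
  constructor
  · set m := Function.minimalPeriod R.φ d with hm
    have hper : 0 < m := by
      apply Function.minimalPeriod_pos_of_mem_periodicPts
      have h1 : R.φ.SameCycle (R.φ d) d := ⟨-1, by simp⟩
      obtain ⟨n, hn⟩ := h1.exists_nat_pow_eq
      refine ⟨n + 1, Nat.succ_pos n, ?_⟩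
      show R.φ^[n + 1] d = d
      rw [Function.iterate_succ_apply, ← Equiv.Perm.coe_pow]
      exact hn
    have : NeZero m := ⟨hper.ne'⟩
    let p : ZMod m → (rst G U).Dart := fun j => R.φ^[j.val] d
    have hpn : ∀ n : ℕ, p (n : ZMod m) = R.φ^[n] d := by
      intro n
      show R.φ^[(n : ZMod m).val] d = R.φ^[n] d
      rw [ZMod.val_natCast, hm, Function.iterate_mod_minimalPeriod_eq]
    have hp1 : ∀ j, p (j + 1) = R.φ (p j) := by
      intro j
      have h1 : ((j.val + 1 : ℕ) : ZMod m) = j + 1 := by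
        rw [Nat.cast_add, ZMod.natCast_zmod_val, Nat.cast_one]
      rw [← h1, hpn, Function.iterate_succ_apply']
    have hpi : Function.Injective p := by
      intro j k hjk
      apply ZMod.val_injective m
      exact Function.iterate_injOn_Iio_minimalPeriod (ZMod.val_lt j) (ZMod.val_lt k) hjk
    have hps : ∀ j, R.φ.SameCycle d (p j) := by
      intro j
      refine ⟨(j.val : ℤ), ?_⟩
      rw [zpow_natCast, Equiv.Perm.coe_pow]
    have hci : Function.Injective (fun j => (p j).fst) := by
      intro j k hjk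
      exact hpi (hinj _ _ ((hps j).symm.trans (hps k)) hjk)
    have hp0 : p 0 = d := by
      have := hpn 0
      rw [Nat.cast_zero] at this
      exact this
    have hpp : ∀ j, (p j).toProd = ((p j).fst, (p (j + 1)).fst) := by
      intro j
      rw [hp1, R.φ_fst]
    refine ⟨m, fun j => (p j).fst, ⟨?_, hci, ?_⟩, ?_, ?_⟩
    · by_contra hlt
      have h12 : m = 1 ∨ m = 2 := by omega
      have hit : R.φ^[m] d = d := Function.iterate_minimalPeriod
      rcases h12 with h | h
      · rw [h] at hit
        have h1 : R.φ d = d := hit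
        have h2 := R.φ_fst d
        rw [h1] at h2
        exact d.adj.ne h2
      · rw [h] at hit
        have h1 : R.φ (R.φ d) = d := hit
        apply hns d
        have h2 := R.φ_fst d
        have h3 := R.φ_fst (R.φ d)
        rw [h1] at h3
        apply SimpleGraph.Dart.ext
        exact Prod.ext h2 h3.symm
    · intro j
      exact ⟨p j, p (j + 1), hpp j, hpp (j + 1), (hp1 j).symm⟩
    · ext x
      constructor
      · rintro ⟨j, rfl⟩
        exact ⟨p j, hps j, rfl⟩
      · rintro ⟨e, he, rfl⟩
        obtain ⟨n, hn⟩ := he.exists_nat_pow_eq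
        refine ⟨(n : ZMod m), ?_⟩
        show (p (n : ZMod m)).fst = e.fst
        rw [hpn, ← hn, Equiv.Perm.coe_pow]
    · have h1 := hpp 0
      rw [hp0, zero_add] at h1
      show ((p 0).fst, (p 1).fst) = d.toProd
      rw [h1, hp0]
  · intro hs
    apply hns d
    apply hinj
    · have h1 : R.φ.SameCycle d (R.φ d) := ⟨1, by simp⟩
      exact h1.symm.trans hs
    · rw [R.φ_fst]
      rfl

end Pool.Agent.Helper16.NK
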